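import Mathlib
import Pool.Agent.H.MP_3e9a14_an.B

namespace Pool.Agent.Results.MP_3e9a14_an.Reiterative

open Topology Filter

/-- The return set `N(x,U)`. -/
def Ret {X : Type*} (T : X → X) (x : X) (U : Set X) : Set ℕ := {n | 1 ≤ n ∧ T^[n] x ∈ U}

/-- Upper Banach density. -/
noncomputable def Bd (A : Set ℕ) : ℝ :=
  limsup (fun N : ℕ => ⨆ m : ℕ, ((A ∩ Set.Icc (m + 1) (m + N)).ncard : ℝ) / N) atTop

/-- Reiteratively recurrent vectors. -/
def RecVec {X : Type*} [TopologicalSpace X] (T : X → X) : Set X :=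
  {x | ∀ U ∈ 𝓝 x, 0 < Bd (Ret T x U)}

theorem result {𝕜 : Type*} [RCLike 𝕜] {X : Type*} [AddCommGroup X] [Module 𝕜 X]
    [TopologicalSpace X] [IsTopologicalAddGroup X] [ContinuousSMul 𝕜 X]
    [TopologicalSpace.IsCompletelyMetrizableSpace X] (T : X ≃L[𝕜] X)
    (h : Dense (RecVec T)) : Dense (RecVec T.symm) := by
  let _ := TopologicalSpace.upgradeIsCompletelyMetrizable X
  rw [← dense_closure]
  refine h.mono fun x hx => ?_
  have := Pool.Agent.H.MP_3e9a14_an.B.main T.toHomeomorph (x := x)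
    fun U hU => (Pool.Agent.H.MP_3e9a14_an.B.big_iff _).1 (hx U hU)
  refine closure_mono (fun y hy U hU => ?_) this
  exact (Pool.Agent.H.MP_3e9a14_an.B.big_iff _).2 (hy U hU)

end Pool.Agent.Results.MP_3e9a14_an.Reiterative
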