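import Mathlib
import Pool.Agent.H.MP_3e9a14_an.A

namespace Pool.Agent.Results.MP_3e9a14_an.Uniform

open Topology

/-- The return set `N(x,U)`. -/
def Ret {X : Type*} (T : X → X) (x : X) (U : Set X) : Set ℕ := {n | 1 ≤ n ∧ T^[n] x ∈ U}

/-- Syndetic sets (bounded gaps). -/
def Fam (A : Set ℕ) : Prop := ∃ L : ℕ, ∀ m : ℕ, ∃ n ∈ A, m ≤ n ∧ n ≤ m + L

/-- Recurrent vectors for this family of sets. -/
def RecVec {X : Type*} [TopologicalSpace X] (T : X → X) : Set X :=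
  {x | ∀ U ∈ 𝓝 x, Fam (Ret T x U)}

theorem result {𝕜 : Type*} [RCLike 𝕜] {X : Type*} [AddCommGroup X] [Module 𝕜 X]
    [TopologicalSpace X] [IsTopologicalAddGroup X] [ContinuousSMul 𝕜 X] (T : X ≃L[𝕜] X)
    (h : Dense (RecVec T)) : Dense (RecVec T.symm) :=
  h.mono fun x hx => Pool.Agent.H.MP_3e9a14_an.unif T.toHomeomorph x hx

end Pool.Agent.Results.MP_3e9a14_an.Uniform
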